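import Mathlib

/-!
# Osgood's lemma (complex differentiable functions of several variables are analytic)

`Pool.Agent.Lib.Osgood.analyticOnNhd` : if `E` is a finite dimensional complex normed space, `F` a
complex Banach space and `f : E → F` is complex (Frechet) differentiable on an open set `U`, then `f`
is analytic on `U`.
-/

set_option autoImplicit false

open Filter Topology Metric Set

namespace Pool.Agent.Lib.Osgood

universe u

variable {E : Type u} [NormedAddCommGroup E] [NormedSpace ℂ E]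
variable {F : Type u} [NormedAddCommGroup F] [NormedSpace ℂ F]

/-- The restriction of `f` to the complex line through `w` in direction `v`. -/
lemma line_differentiableOn {f : E → F} {U : Set E} (hf : DifferentiableOn ℂ f U) (hU : IsOpen U)
    (w v : E) {V : Set ℂ} (hV : ∀ s ∈ V, w + s • v ∈ U) :
    DifferentiableOn ℂ (fun s : ℂ => f (w + s • v)) V := by
  intro s hs
  have h1 : DifferentiableAt ℂ f (w + s • v) := (hf _ (hV s hs)).differentiableAt
    (hU.mem_nhds (hV s hs))
  have h2 : DifferentiableAt ℂ (fun s : ℂ => w + s • v) s := by fun_prop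
  exact (DifferentiableAt.comp s h1 h2).differentiableWithinAt

lemma deriv_line {f : E → F} {w : E} (v : E) (s : ℂ) (hf : DifferentiableAt ℂ f (w + s • v)) :
    HasDerivAt (fun s : ℂ => f (w + s • v)) (fderiv ℂ f (w + s • v) v) s := by
  have h2 : HasDerivAt (fun s : ℂ => w + s • v) v s := by
    simpa using ((hasDerivAt_id s).smul_const v).const_add w
  exact hf.hasFDerivAt.comp_hasDerivAt s h2

/-- Cauchy's estimate for the Frechet derivative. -/
lemma norm_fderiv_le {f : E → F} {z : E} {R M : ℝ} (hR : 0 < R)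
    (hf : DifferentiableOn ℂ f (ball z R)) (hM : ∀ w ∈ ball z R, ‖f w‖ ≤ M) :
    ‖fderiv ℂ f z‖ ≤ M / R := by
  have hM0 : 0 ≤ M := (norm_nonneg _).trans (hM z (mem_ball_self hR))
  refine ContinuousLinearMap.opNorm_le_bound _ (by positivity) (fun v => ?_)
  rcases eq_or_ne v 0 with rfl | hv
  · simp
  have hv' : 0 < ‖v‖ := norm_pos_iff.2 hv
  have key : ∀ ρ : ℝ, 0 < ρ → ρ < R / ‖v‖ → ‖fderiv ℂ f z v‖ ≤ M / ρ := by
    intro ρ hρ hρR
    have hmem : ∀ s : ℂ, ‖s‖ ≤ ρ → z + s • v ∈ ball z R := by
      intro s hs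
      rw [mem_ball, dist_self_add_left, norm_smul]
      calc ‖s‖ * ‖v‖ ≤ ρ * ‖v‖ := by gcongr
        _ < R / ‖v‖ * ‖v‖ := by gcongr
        _ = R := by field_simp
    have h0 : DifferentiableAt ℂ f (z + (0:ℂ) • v) :=
      (hf _ (hmem 0 (by simpa using hρ.le))).differentiableAt
        (isOpen_ball.mem_nhds (hmem 0 (by simpa using hρ.le)))
    have h1 := (deriv_line v 0 h0).deriv
    rw [zero_smul, add_zero] at h1
    rw [← h1]
    refine Complex.norm_deriv_le_of_forall_mem_sphere_norm_le hρ ?_ ?_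
    · have : DifferentiableOn ℂ (fun s : ℂ => f (z + s • v)) (closedBall 0 ρ) := by
        apply line_differentiableOn hf isOpen_ball
        intro s hs
        exact hmem s (by simpa using hs)
      exact DifferentiableOn.diffContOnCl_ball this subset_rfl
    · intro s hs
      exact hM _ (hmem s (by simpa using (mem_sphere_iff_norm.1 hs).le))
  have hlim : Tendsto (fun ρ : ℝ => M / ρ) (𝓝[<] (R / ‖v‖)) (𝓝 (M / (R / ‖v‖))) := by
    apply Tendsto.mono_left _ nhdsWithin_le_nhds
    apply Tendsto.div tendsto_const_nhds tendsto_id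
    positivity
  have : ‖fderiv ℂ f z v‖ ≤ M / (R / ‖v‖) := by
    refine ge_of_tendsto hlim ?_
    have hpos : (0 : ℝ) < R / ‖v‖ := by positivity
    filter_upwards [Ioo_mem_nhdsLT hpos] with ρ hρ
    exact key ρ hρ.1 hρ.2
  calc ‖fderiv ℂ f z v‖ ≤ M / (R / ‖v‖) := this
    _ = M / R * ‖v‖ := by field_simp

lemma norm_fderiv_le' {f : E → F} {z : E} {R r M : ℝ} (hr : r < R)
    (hf : DifferentiableOn ℂ f (ball z R)) (hM : ∀ w ∈ ball z R, ‖f w‖ ≤ M) {w : E}
    (hw : w ∈ closedBall z r) :
    ‖fderiv ℂ f w‖ ≤ M / (R - r) := by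
  have hsub : ball w (R - r) ⊆ ball z R := by
    apply ball_subset_ball'
    have := mem_closedBall.1 hw
    linarith
  exact norm_fderiv_le (by linarith) (hf.mono hsub) (fun u hu => hM u (hsub hu))

/-- The derivative is locally Lipschitz, in particular continuous. -/
lemma continuousOn_fderiv {f : E → F} {U : Set E} (hU : IsOpen U)
    (hf : DifferentiableOn ℂ f U) : ContinuousOn (fderiv ℂ f) U := by
  intro z hz
  -- a ball on which `f` is bounded
  obtain ⟨R, hR, M, hRU, hM⟩ : ∃ R > 0, ∃ M : ℝ, ball z R ⊆ U ∧ ∀ w ∈ ball z R, ‖f w‖ ≤ M := by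
    have hc : ContinuousAt f z := (hf z hz).continuousWithinAt.continuousAt (hU.mem_nhds hz)
    have h1 : ∀ᶠ w in 𝓝 z, ‖f w‖ < ‖f z‖ + 1 :=
      hc.norm.eventually_lt continuousAt_const (by linarith)
    have h2 : ∀ᶠ w in 𝓝 z, w ∈ U := hU.mem_nhds hz
    obtain ⟨R, hR, h⟩ := Metric.eventually_nhds_iff_ball.1 (h1.and h2)
    exact ⟨R, hR, ‖f z‖ + 1, fun w hw => (h w hw).2, fun w hw => (h w hw).1.le⟩
  have hM0 : 0 ≤ M := (norm_nonneg _).trans (hM z (mem_ball_self hR))
  have hfR : DifferentiableOn ℂ f (ball z R) := hf.mono hRU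
  -- Lipschitz bound on the ball of radius R/2
  have hlip : ∀ x ∈ ball z (R/2), ∀ y ∈ ball z (R/2), ‖f y - f x‖ ≤ M / (R - R/2) * ‖y - x‖ := by
    intro x hx y hy
    refine Convex.norm_image_sub_le_of_norm_fderiv_le (𝕜 := ℂ) (s := ball z (R/2)) ?_ ?_
      (convex_ball z (R/2)) hx hy
    · intro u hu
      have hu' : u ∈ ball z R := ball_subset_ball (by linarith) hu
      exact (hfR u hu').differentiableAt (isOpen_ball.mem_nhds hu')
    · intro u hu
      exact norm_fderiv_le' (by linarith) hfR hM (ball_subset_closedBall hu)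
  have hest : ∀ w ∈ ball z (R/4), ‖fderiv ℂ f w - fderiv ℂ f z‖ ≤
      (M / (R - R/2) * ‖w - z‖) / (R/4) := by
    intro w hw
    have hwz : ‖w - z‖ < R/4 := by rwa [← dist_eq_norm]
    set g : E → F := fun u => f (u + (w - z)) - f u with hg
    have hd1 : ∀ u ∈ ball z (R/4), u + (w - z) ∈ ball z (R/2) := by
      intro u hu
      rw [mem_ball, dist_eq_norm] at hu ⊢
      calc ‖u + (w - z) - z‖ = ‖(u - z) + (w - z)‖ := by congr 1; abel
        _ ≤ ‖u - z‖ + ‖w - z‖ := norm_add_le _ _
        _ < R/2 := by linarith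
    have hdf : ∀ u ∈ ball z (R/2), DifferentiableAt ℂ f u := by
      intro u hu
      have hu' : u ∈ ball z R := ball_subset_ball (by linarith) hu
      exact (hfR u hu').differentiableAt (isOpen_ball.mem_nhds hu')
    have hgd : ∀ u ∈ ball z (R/4), HasFDerivAt g (fderiv ℂ f (u + (w - z)) - fderiv ℂ f u) u := by
      intro u hu
      have h1 := (hdf _ (hd1 u hu)).hasFDerivAt
      have h2 : HasFDerivAt (fun u : E => u + (w - z)) (ContinuousLinearMap.id ℂ E) u :=
        (hasFDerivAt_id u).add_const _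
      have h3 := h1.comp u h2
      rw [ContinuousLinearMap.comp_id] at h3
      exact h3.sub (hdf u (ball_subset_ball (by linarith) hu)).hasFDerivAt
    have hgz : fderiv ℂ g z = fderiv ℂ f w - fderiv ℂ f z := by
      have := (hgd z (mem_ball_self (by positivity))).fderiv
      rwa [add_sub_cancel] at this
    rw [← hgz]
    apply norm_fderiv_le (by positivity)
    · intro u hu
      exact (hgd u hu).differentiableAt.differentiableWithinAt
    · intro u hu
      have := hlip u (ball_subset_ball (by linarith) hu) _ (hd1 u hu)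
      simpa [hg] using this
  have htend : Tendsto (fun w => (M / (R - R/2) * ‖w - z‖) / (R/4)) (𝓝 z) (𝓝 0) := by
    have : Tendsto (fun w : E => ‖w - z‖) (𝓝 z) (𝓝 0) := by
      have h := (continuous_id.sub (continuous_const (y := z))).norm.tendsto z
      simpa using h
    simpa using (this.const_mul (M / (R - R/2))).div_const (R/4)
  apply ContinuousAt.continuousWithinAt
  rw [ContinuousAt, tendsto_iff_norm_sub_tendsto_zero]
  refine squeeze_zero' (Eventually.of_forall fun _ => norm_nonneg _) ?_ htend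
  filter_upwards [ball_mem_nhds z (show (0:ℝ) < R/4 by positivity)] with w hw
  exact hest w hw

lemma differentiableAt_of_apply {D : Type*} [NormedAddCommGroup D] [NormedSpace ℂ D]
    [FiniteDimensional ℂ E] {f : D → E →L[ℂ] F} {x : D}
    (h : ∀ v : E, DifferentiableAt ℂ (fun y => f y v) x) : DifferentiableAt ℂ f x := by
  let d := Module.finrank ℂ E
  have hd : d = Module.finrank ℂ (Fin d → ℂ) := (Module.finrank_fin_fun ℂ).symm
  let e₁ := ContinuousLinearEquiv.ofFinrankEq hd
  let e₂ := (e₁.arrowCongr (1 : F ≃L[ℂ] F)).trans (ContinuousLinearEquiv.piRing (Fin d))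
  rw [← Function.id_comp f, ← e₂.symm_comp_self]
  exact e₂.symm.differentiable.differentiableAt.comp x
    (differentiableAt_pi.mpr fun i => h _)

/-- Differentiation of a parametric circle integral. -/
lemma differentiableAt_circleIntegral [FiniteDimensional ℂ E] [CompleteSpace F] {f : E → F}
    {U : Set E} (hU : IsOpen U) (hf : DifferentiableOn ℂ f U) {ρ : ℝ} (hρ : 0 ≤ ρ)
    {k : ℂ → ℂ} (hk : ContinuousOn k (sphere 0 ρ))
    {c : ℂ → E} (hq : ContinuousOn c (sphere 0 ρ)) {z : E}
    (hz : ∀ s ∈ sphere (0:ℂ) ρ, z + c s ∈ U) :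
    DifferentiableAt ℂ (fun u => ∮ s in C(0, ρ), k s • f (u + c s)) z := by
  have : ProperSpace E := FiniteDimensional.proper ℂ E
  -- a compact neighbourhood on which everything stays in `U`
  obtain ⟨δ, hδ, hδU⟩ : ∃ δ > 0, ∀ u ∈ closedBall z δ, ∀ s ∈ sphere (0:ℂ) ρ, u + c s ∈ U := by
    have hK : IsCompact ((fun s => z + c s) '' sphere (0:ℂ) ρ) :=
      (isCompact_sphere _ _).image_of_continuousOn (continuousOn_const.add hq)
    have hKU : (fun s => z + c s) '' sphere (0:ℂ) ρ ⊆ U := by
      rintro _ ⟨s, hs, rfl⟩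
      exact hz s hs
    obtain ⟨δ, hδ, h⟩ := hK.exists_cthickening_subset_open hU hKU
    refine ⟨δ, hδ, fun u hu s hs => h ?_⟩
    apply mem_cthickening_of_dist_le _ (z + c s) _ _ (mem_image_of_mem (fun s => z + c s) hs)
    rw [dist_add_right]
    exact mem_closedBall.1 hu
  have hcf := continuousOn_fderiv hU hf
  -- bound on the derivative
  obtain ⟨C, hC⟩ : ∃ C : ℝ, ∀ u ∈ closedBall z δ, ∀ s ∈ sphere (0:ℂ) ρ,
      ‖k s • fderiv ℂ f (u + c s)‖ ≤ C := by
    have hK : IsCompact (closedBall z δ ×ˢ sphere (0:ℂ) ρ) :=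
      (isCompact_closedBall z δ).prod (isCompact_sphere _ _)
    have hc : ContinuousOn (fun p : E × ℂ => k p.2 • fderiv ℂ f (p.1 + c p.2))
        (closedBall z δ ×ˢ sphere (0:ℂ) ρ) := by
      refine ContinuousOn.smul (f := fun p : E × ℂ => k p.2)
        (g := fun p : E × ℂ => fderiv ℂ f (p.1 + c p.2)) ?_ ?_
      · exact hk.comp continuousOn_snd (fun p hp => hp.2)
      · refine hcf.comp (continuousOn_fst.add (hq.comp continuousOn_snd (fun p hp => hp.2))) ?_
        intro p hp
        exact hδU _ hp.1 _ hp.2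
    obtain ⟨C, hC⟩ := hK.exists_bound_of_continuousOn hc
    exact ⟨C, fun u hu s hs => hC (u, s) ⟨hu, hs⟩⟩
  have hmaps : ∀ θ : ℝ, circleMap 0 ρ θ ∈ sphere (0:ℂ) ρ := fun θ => circleMap_mem_sphere _ hρ θ
  have hcm : Continuous (circleMap 0 ρ) := continuous_circleMap 0 ρ
  have hcd : Continuous (deriv (circleMap 0 ρ)) := by
    have : deriv (circleMap 0 ρ) = fun θ => circleMap 0 ρ θ * Complex.I := by
      ext θ; simp [deriv_circleMap]
    rw [this]
    exact hcm.mul continuous_const
  have hkc : Continuous (fun θ : ℝ => k (circleMap 0 ρ θ)) := hk.comp_continuous hcm hmaps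
  have hcc : Continuous (fun θ : ℝ => c (circleMap 0 ρ θ)) := hq.comp_continuous hcm hmaps
  simp only [circleIntegral]
  refine HasFDerivAt.differentiableAt
    (f' := ∫ θ in (0:ℝ)..2 * Real.pi, deriv (circleMap 0 ρ) θ •
      (k (circleMap 0 ρ θ) • fderiv ℂ f (z + c (circleMap 0 ρ θ)))) ?_
  refine intervalIntegral.hasFDerivAt_integral_of_dominated_of_fderiv_le
    (F := fun u θ => deriv (circleMap 0 ρ) θ • k (circleMap 0 ρ θ) • f (u + c (circleMap 0 ρ θ)))
    (F' := fun u θ => deriv (circleMap 0 ρ) θ •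
      (k (circleMap 0 ρ θ) • fderiv ℂ f (u + c (circleMap 0 ρ θ))))
    (bound := fun _ => ρ * C) (closedBall_mem_nhds z hδ) ?_ ?_ ?_ ?_ ?_ ?_
  · filter_upwards [closedBall_mem_nhds z hδ] with u hu
    apply Continuous.aestronglyMeasurable
    apply hcd.smul (hkc.smul _)
    exact hf.continuousOn.comp_continuous (continuous_const.add hcc) (fun θ => hδU u hu _ (hmaps θ))
  · apply Continuous.intervalIntegrable
    apply hcd.smul (hkc.smul _)
    exact hf.continuousOn.comp_continuous (continuous_const.add hcc)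
      (fun θ => hδU z (mem_closedBall_self hδ.le) _ (hmaps θ))
  · apply Continuous.aestronglyMeasurable
    apply hcd.smul (hkc.smul _)
    exact hcf.comp_continuous (continuous_const.add hcc)
      (fun θ => hδU z (mem_closedBall_self hδ.le) _ (hmaps θ))
  · refine Eventually.of_forall (fun θ _ u hu => ?_)
    rw [norm_smul]
    have h1 : ‖deriv (circleMap 0 ρ) θ‖ = ρ := by
      simp [deriv_circleMap, abs_of_nonneg hρ]
    rw [h1]
    gcongr
    exact hC u hu _ (hmaps θ)
  · exact intervalIntegrable_const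
  · refine Eventually.of_forall (fun θ _ u hu => ?_)
    have hmem := hδU u hu _ (hmaps θ)
    have h1 : HasFDerivAt f (fderiv ℂ f (u + c (circleMap 0 ρ θ))) (u + c (circleMap 0 ρ θ)) :=
      ((hf _ hmem).differentiableAt (hU.mem_nhds hmem)).hasFDerivAt
    have h2 : HasFDerivAt (fun u : E => u + c (circleMap 0 ρ θ)) (ContinuousLinearMap.id ℂ E) u :=
      (hasFDerivAt_id u).add_const _
    have h3 := h1.comp u h2
    rw [ContinuousLinearMap.comp_id] at h3
    exact (h3.const_smul _).const_smul _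

/-- The derivative of a complex differentiable function is complex differentiable. -/
lemma differentiableOn_fderiv [FiniteDimensional ℂ E] [CompleteSpace F] {f : E → F} {U : Set E}
    (hU : IsOpen U) (hf : DifferentiableOn ℂ f U) : DifferentiableOn ℂ (fderiv ℂ f) U := by
  intro z hz
  apply DifferentiableAt.differentiableWithinAt
  apply differentiableAt_of_apply
  intro v
  -- radius
  obtain ⟨R, hR, hRU⟩ := Metric.isOpen_iff.1 hU z hz
  -- choose ρ with ρ‖v‖ < R/2
  obtain ⟨ρ, hρ, hρR⟩ : ∃ ρ : ℝ, 0 < ρ ∧ ρ * ‖v‖ < R / 2 := by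
    refine ⟨R / 2 / (‖v‖ + 1), by positivity, ?_⟩
    rw [div_mul_eq_mul_div, div_lt_iff₀ (by positivity)]
    have := norm_nonneg v
    nlinarith
  have hmem : ∀ u ∈ ball z (R/2), ∀ s : ℂ, ‖s‖ ≤ ρ → u + s • v ∈ ball z R := by
    intro u hu s hs
    rw [mem_ball, dist_eq_norm] at hu ⊢
    calc ‖u + s • v - z‖ = ‖(u - z) + s • v‖ := by congr 1; abel
      _ ≤ ‖u - z‖ + ‖s • v‖ := norm_add_le _ _
      _ = ‖u - z‖ + ‖s‖ * ‖v‖ := by rw [norm_smul]
      _ ≤ ‖u - z‖ + ρ * ‖v‖ := by gcongr
      _ < R := by linarith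
  have hform : ∀ u ∈ ball z (R/2), fderiv ℂ f u v =
      (2 * Real.pi * Complex.I : ℂ)⁻¹ • ∮ s in C(0, ρ), (1 / (s - 0) ^ 2) • f (u + s • v) := by
    intro u hu
    have h0 : DifferentiableAt ℂ f (u + (0:ℂ) • v) := by
      have := hmem u hu 0 (by simpa using hρ.le)
      exact (hf _ (hRU this)).differentiableAt (hU.mem_nhds (hRU this))
    have h1 := (deriv_line v 0 h0).deriv
    rw [zero_smul, add_zero] at h1
    have hd : DifferentiableOn ℂ (fun s : ℂ => f (u + s • v)) (closedBall 0 ρ) := by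
      apply line_differentiableOn hf hU
      intro s hs
      exact hRU (hmem u hu s (by simpa using hs))
    rw [hd.deriv_eq_smul_circleIntegral hρ, h1, inv_smul_smul₀]
    exact Complex.two_pi_I_ne_zero
  have hd : DifferentiableAt ℂ (fun u => (2 * Real.pi * Complex.I : ℂ)⁻¹ •
      ∮ s in C(0, ρ), (1 / (s - 0) ^ 2) • f (u + s • v)) z := by
    apply DifferentiableAt.const_smul
    refine differentiableAt_circleIntegral hU hf hρ.le (k := fun s => 1 / (s - 0) ^ 2)
      (c := fun s => s • v) ?_ (by fun_prop) ?_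
    · apply ContinuousOn.div continuousOn_const (by fun_prop)
      intro s hs
      have : s ≠ 0 := by
        rintro rfl
        simp at hs
        linarith
      simpa using this
    · intro s hs
      exact hRU (hmem z (mem_ball_self (by positivity)) s (by simpa using (mem_sphere_iff_norm.1 hs).le))
  refine hd.congr_of_eventuallyEq ?_
  filter_upwards [ball_mem_nhds z (show (0:ℝ) < R/2 by positivity)] with u hu
  exact hform u hu

/-- Cauchy's estimates for all iterated derivatives. -/
lemma norm_iteratedFDeriv_le [FiniteDimensional ℂ E] (k : ℕ) :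
    ∀ {G : Type u} [NormedAddCommGroup G] [NormedSpace ℂ G] [CompleteSpace G] {f : E → G} {z : E}
      {R M : ℝ} (_ : 0 < R) (_ : DifferentiableOn ℂ f (ball z R))
      (_ : ∀ w ∈ ball z R, ‖f w‖ ≤ M), ‖iteratedFDeriv ℂ k f z‖ ≤ M * (k / R) ^ k := by
  induction k with
  | zero =>
    intro G _ _ _ f z R M hR hf hM
    simpa using hM z (mem_ball_self hR)
  | succ k ih =>
    intro G _ _ _ f z R M hR hf hM
    have hM0 : 0 ≤ M := (norm_nonneg _).trans (hM z (mem_ball_self hR))
    rw [← norm_iteratedFDeriv_fderiv]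
    rcases Nat.eq_zero_or_pos k with rfl | hk
    · simpa [div_eq_mul_inv] using norm_fderiv_le hR hf hM
    have hk' : (0:ℝ) < k := by exact_mod_cast hk
    set R' : ℝ := k * R / (k + 1) with hR'
    have hR'pos : 0 < R' := by positivity
    have hR'lt : R' < R := by
      rw [hR', div_lt_iff₀ (by positivity)]
      nlinarith
    have h1 := ih (f := fderiv ℂ f) (z := z) (R := R') (M := M / (R - R')) hR'pos
      ((differentiableOn_fderiv isOpen_ball hf).mono (ball_subset_ball hR'lt.le))
      (fun w hw => norm_fderiv_le' hR'lt hf hM (ball_subset_closedBall hw))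
    refine h1.trans (le_of_eq ?_)
    have h2 : R - R' = R / (k + 1) := by
      rw [hR']; field_simp; ring
    rw [h2, hR']
    have h3 : (k : ℝ) / (k * R / (k + 1)) = (k + 1) / R := by field_simp
    rw [h3, pow_succ]
    push_cast
    field_simp

lemma contDiffOn_nat [FiniteDimensional ℂ E] (n : ℕ) : ∀ {G : Type u} [NormedAddCommGroup G]
    [NormedSpace ℂ G] [CompleteSpace G] {f : E → G} {U : Set E} (_ : IsOpen U)
    (_ : DifferentiableOn ℂ f U), ContDiffOn ℂ n f U := by
  induction n with
  | zero =>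
    intro G _ _ _ f U hU hf
    simpa using hf.continuousOn
  | succ n ih =>
    intro G _ _ _ f U hU hf
    rw [Nat.cast_add, Nat.cast_one, contDiffOn_succ_iff_fderiv_of_isOpen hU]
    refine ⟨hf, fun h => ?_, ih hU (differentiableOn_fderiv hU hf)⟩
    exact absurd h (by simp)

/-- Taylor coefficients along complex lines. -/
lemma iteratedDeriv_line [FiniteDimensional ℂ E] [CompleteSpace F] {f : E → F} {z : E}
    {R : ℝ} (hf : DifferentiableOn ℂ f (ball z R)) (y : E) (n : ℕ) :
    ∀ s : ℂ, z + s • y ∈ ball z R →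
      iteratedDeriv n (fun s : ℂ => f (z + s • y)) s =
        iteratedFDeriv ℂ n f (z + s • y) (fun _ => y) := by
  induction n with
  | zero => intro s hs; simp
  | succ n ih =>
    intro s hs
    rw [iteratedDeriv_succ]
    have hopen : IsOpen {s : ℂ | z + s • y ∈ ball z R} :=
      isOpen_ball.preimage (by fun_prop)
    have hev : iteratedDeriv n (fun s : ℂ => f (z + s • y)) =ᶠ[𝓝 s]
        fun s => iteratedFDeriv ℂ n f (z + s • y) (fun _ => y) := by
      filter_upwards [hopen.mem_nhds hs] with s' hs'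
      exact ih s' hs'
    rw [hev.deriv_eq]
    exact ((contDiffOn_nat (n + 1) isOpen_ball hf).contDiffAt
      (isOpen_ball.mem_nhds hs)).deriv_fderiv_add_smul

/-- **Osgood's lemma**, local version. -/
theorem analyticAt [FiniteDimensional ℂ E] [CompleteSpace F] {f : E → F} {z : E}
    {R : ℝ} (hR : 0 < R) (hf : DifferentiableOn ℂ f (ball z R)) : AnalyticAt ℂ f z := by
  -- bounded on a smaller ball
  obtain ⟨r, hr, hrR, M, hM⟩ : ∃ r > 0, r ≤ R ∧ ∃ M : ℝ, ∀ w ∈ ball z r, ‖f w‖ ≤ M := by
    have hc : ContinuousAt f z := (hf z (mem_ball_self hR)).continuousWithinAt.continuousAt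
      (isOpen_ball.mem_nhds (mem_ball_self hR))
    have h1 : ∀ᶠ w in 𝓝 z, ‖f w‖ < ‖f z‖ + 1 :=
      hc.norm.eventually_lt continuousAt_const (by linarith)
    obtain ⟨r, hr, h⟩ := Metric.eventually_nhds_iff_ball.1 h1
    refine ⟨min r R, lt_min hr hR, min_le_right _ _, ‖f z‖ + 1, fun w hw => (h w ?_).le⟩
    exact ball_subset_ball (min_le_left _ _) hw
  have hfr : DifferentiableOn ℂ f (ball z r) := hf.mono (ball_subset_ball hrR)
  have hM0 : 0 ≤ M := (norm_nonneg _).trans (hM z (mem_ball_self hr))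
  let p : FormalMultilinearSeries ℂ E F := fun n => ((n.factorial : ℂ)⁻¹) • iteratedFDeriv ℂ n f z
  let e : ℝ := Real.exp 1
  have he : 0 < e := Real.exp_pos 1
  have he1 : 1 < e := Real.one_lt_exp_iff.2 one_pos
  let ρ : NNReal := ⟨r / e, by positivity⟩
  have hρpos : 0 < (ρ : ℝ) := by change 0 < r / e; positivity
  have hρr : (ρ : ℝ) < r := by
    change r / e < r
    rw [div_lt_iff₀ he]
    nlinarith
  refine HasFPowerSeriesAt.analyticAt (p := p) ⟨ρ, ?_, ?_, ?_⟩
  · apply FormalMultilinearSeries.le_radius_of_bound (C := M)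
    intro n
    have h1 : ‖p n‖ ≤ (n.factorial : ℝ)⁻¹ * (M * (n / r) ^ n) := by
      change ‖((n.factorial : ℂ)⁻¹) • iteratedFDeriv ℂ n f z‖ ≤ _
      rw [norm_smul]
      have : ‖((n.factorial : ℂ)⁻¹)‖ = (n.factorial : ℝ)⁻¹ := by simp
      rw [this]
      gcongr
      exact norm_iteratedFDeriv_le n hr hfr hM
    have h2 : (n : ℝ) ^ n / n.factorial ≤ Real.exp n := Real.pow_div_factorial_le_exp (n : ℝ) (Nat.cast_nonneg n) n
    have h3 : Real.exp n = e ^ n := by
      rw [← Real.exp_nat_mul]; simp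
    calc ‖p n‖ * (ρ : ℝ) ^ n ≤ (n.factorial : ℝ)⁻¹ * (M * (n / r) ^ n) * (r / e) ^ n := by
          gcongr
          exact le_refl _
      _ = M * ((n : ℝ) ^ n / n.factorial * (1 / e) ^ n) := by
          rw [div_pow, div_pow, div_pow]
          field_simp
          simp
      _ ≤ M * (e ^ n * (1 / e) ^ n) := by
          rw [h3] at h2
          gcongr
      _ = M := by
          rw [← mul_pow, mul_one_div_cancel he.ne', one_pow, mul_one]
  · simpa using hρpos
  · intro y hy
    have hy' : ‖y‖ < r := by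
      have : ‖y‖ < ρ := by simpa using hy
      linarith
    -- the one variable function
    have hd : DifferentiableOn ℂ (fun s : ℂ => f (z + s • y)) {s : ℂ | ‖s • y‖ < r} := by
      apply line_differentiableOn hfr isOpen_ball
      intro s hs
      simpa [mem_ball, dist_eq_norm] using hs
    obtain ⟨t, ht, hty⟩ : ∃ t : ℝ, 1 < t ∧ t * ‖y‖ < r := by
      rcases eq_or_ne ‖y‖ 0 with h0 | h0
      · exact ⟨2, by norm_num, by rw [h0]; simpa using hr⟩
      · have hy0 : 0 < ‖y‖ := lt_of_le_of_ne (norm_nonneg _) (Ne.symm h0)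
        obtain ⟨t, ht1, ht2⟩ := exists_between ((one_lt_div hy0).2 hy')
        exact ⟨t, ht1, (lt_div_iff₀ hy0).1 ht2⟩
    have hd' : DifferentiableOn ℂ (fun s : ℂ => f (z + s • y)) (ball 0 t) := by
      apply hd.mono
      intro s hs
      have hs' : ‖s‖ < t := by simpa using hs
      change ‖s • y‖ < r
      rw [norm_smul]
      calc ‖s‖ * ‖y‖ ≤ t * ‖y‖ := by gcongr
        _ < r := hty
    have h1 := Complex.hasSum_taylorSeries_on_ball hd' (z := 1) (by simpa using ht)
    simp only [sub_zero, one_pow, one_smul] at h1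
    have h2 : (fun n : ℕ => p n (fun _ => y)) = fun n : ℕ => ((n.factorial : ℂ)⁻¹) •
        iteratedDeriv n (fun s : ℂ => f (z + s • y)) 0 := by
      ext n
      rw [iteratedDeriv_line hfr y n 0 (by simpa using hr)]
      simp [p]
    rw [h2]
    exact h1

/-- **Osgood's lemma**: a complex differentiable function on an open subset of a finite dimensional
complex space is analytic. -/
theorem analyticOnNhd [FiniteDimensional ℂ E] [CompleteSpace F] {f : E → F} {U : Set E}
    (hU : IsOpen U) (hf : DifferentiableOn ℂ f U) : AnalyticOnNhd ℂ f U := by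
  intro z hz
  obtain ⟨R, hR, hRU⟩ := Metric.isOpen_iff.1 hU z hz
  exact analyticAt hR (hf.mono hRU)

theorem analyticAt_iff [FiniteDimensional ℂ E] [CompleteSpace F] {f : E → F} {z : E} :
    AnalyticAt ℂ f z ↔ ∀ᶠ w in 𝓝 z, DifferentiableAt ℂ f w := by
  constructor
  · intro h
    filter_upwards [h.eventually_analyticAt] with w hw
    exact hw.differentiableAt
  · intro h
    obtain ⟨R, hR, hRf⟩ := Metric.eventually_nhds_iff_ball.1 h
    exact analyticAt hR (fun w hw => (hRf w hw).differentiableWithinAt)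

end Pool.Agent.Lib.Osgood
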