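import Mathlib

/-!
# Kneser's addition theorem for abelian groups

For nonempty finite subsets `A`, `B` of an abelian group, with `H` the stabilizer of `A + B`,
`|A + H| + |B + H| ≤ |A + B| + |H|`.
-/

open Finset Pointwise

namespace Pool.Agent.Lib.Kneser

variable {G : Type*} [AddCommGroup G] [DecidableEq G]

/-- The stabilizer of a finite set (for a nonempty set this is `{g | g + S = S}`). -/
def stab (S : Finset G) : Finset G := (S - S).filter (fun g => g +ᵥ S = S)

lemma mem_stab {S : Finset G} (hS : S.Nonempty) {g : G} : g ∈ stab S ↔ g +ᵥ S = S := by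
  unfold stab
  rw [Finset.mem_filter]
  constructor
  · exact fun h => h.2
  · intro h
    refine ⟨?_, h⟩
    obtain ⟨s, hs⟩ := hS
    have h1 : g + s ∈ S := by
      rw [← h]
      exact Finset.vadd_mem_vadd_finset hs
    rw [Finset.mem_sub]
    exact ⟨g + s, h1, s, hs, by abel⟩

/-- `g ∈ stab S` iff `g + S ⊆ S`. -/
lemma mem_stab_iff_subset {S : Finset G} (hS : S.Nonempty) {g : G} :
    g ∈ stab S ↔ ∀ s ∈ S, g + s ∈ S := by
  rw [mem_stab hS]
  constructor
  · intro h s hs
    rw [← h]
    exact Finset.vadd_mem_vadd_finset hs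
  · intro h
    apply Finset.eq_of_subset_of_card_le
    · intro x hx
      rw [Finset.mem_vadd_finset] at hx
      obtain ⟨s, hs, rfl⟩ := hx
      exact h s hs
    · simp

lemma zero_mem_stab {S : Finset G} (hS : S.Nonempty) : (0 : G) ∈ stab S := by
  rw [mem_stab_iff_subset hS]
  intro s hs
  simpa using hs

lemma add_mem_stab {S : Finset G} (hS : S.Nonempty) {g h : G} (hg : g ∈ stab S)
    (hh : h ∈ stab S) : g + h ∈ stab S := by
  rw [mem_stab_iff_subset hS] at *
  intro s hs
  have := hg _ (hh s hs)
  rwa [← add_assoc] at this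

lemma neg_mem_stab {S : Finset G} (hS : S.Nonempty) {g : G} (hg : g ∈ stab S) :
    -g ∈ stab S := by
  rw [mem_stab hS] at *
  conv_lhs => rw [← hg]
  rw [neg_vadd_vadd]

lemma add_mem_iff {S : Finset G} (hS : S.Nonempty) {g : G} (hg : g ∈ stab S) (x : G) :
    x + g ∈ S ↔ x ∈ S := by
  constructor
  · intro h
    have h1 := (mem_stab_iff_subset hS).1 (neg_mem_stab hS hg) _ h
    have h2 : -g + (x + g) = x := by abel
    rwa [h2] at h1
  · intro h
    have h1 := (mem_stab_iff_subset hS).1 hg _ h
    rwa [add_comm] at h1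

/-- counting lemma: `|U| |V| ≤ |D| |W|` when `(u,v) ↦ c + u + v` maps to `W`, with fibres
controlled by `D = stab S ∩ stab T`. -/
lemma card_mul_card_le {S T : Finset G} (hS : S.Nonempty) (hT : T.Nonempty) (c : G)
    {U V W : Finset G} (hU : U ⊆ stab S) (hV : V ⊆ stab T)
    (hW : ∀ u ∈ U, ∀ v ∈ V, c + u + v ∈ W) :
    U.card * V.card ≤ (stab S ∩ stab T).card * W.card := by
  classical
  rw [← Finset.card_product]
  refine Finset.card_le_mul_card_image_of_maps_to (f := fun p : G × G => c + p.1 + p.2)
    (fun p hp => ?_) _ (fun w hw => ?_)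
  · rw [Finset.mem_product] at hp
    exact hW _ hp.1 _ hp.2
  · rcases (Finset.filter (fun p : G × G => c + p.1 + p.2 = w) (U ×ˢ V)).eq_empty_or_nonempty
      with he | ⟨p0, hp0⟩
    · rw [he]; simp
    · rw [Finset.mem_filter, Finset.mem_product] at hp0
      refine Finset.card_le_card_of_injOn (fun p => p.1 - p0.1) ?_ ?_
      · intro p hp
        rw [Finset.mem_coe, Finset.mem_filter, Finset.mem_product] at hp
        rw [Finset.mem_coe, Finset.mem_inter]
        have e : c + p.1 + p.2 = c + p0.1 + p0.2 := by rw [hp.2, hp0.2]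
        have e' : p.1 - p0.1 = p0.2 + -p.2 := by
          have e2 : c + (p.1 + p.2) = c + (p0.1 + p0.2) := by
            rw [← add_assoc, e, add_assoc]
          have e3 := add_left_cancel e2
          have : p.1 = p0.1 + p0.2 - p.2 := eq_sub_of_add_eq e3
          rw [this]; abel
        constructor
        · show p.1 - p0.1 ∈ _
          rw [sub_eq_add_neg]
          exact add_mem_stab hS (hU hp.1.1) (neg_mem_stab hS (hU hp0.1.1))
        · show p.1 - p0.1 ∈ _
          rw [e']
          exact add_mem_stab hT (hV hp0.1.2) (neg_mem_stab hT (hV hp.1.2))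
      · intro p hp q hq hpq
        rw [Finset.mem_coe, Finset.mem_filter, Finset.mem_product] at hp hq
        have h1 : p.1 = q.1 := by
          have : p.1 - p0.1 = q.1 - p0.1 := hpq
          exact sub_left_injective this
        have h2 : p.2 = q.2 := by
          have := hp.2.trans hq.2.symm
          rw [h1] at this
          exact add_left_cancel this
        exact Prod.ext h1 h2

/-- The half lemma. -/
lemma half {S T : Finset G} (hS : S.Nonempty) (hT : T.Nonempty) {c : G} (hcT : c ∈ T)
    (hcS : c ∉ S) :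
    ((stab S).card ≤ (T \ S).card + (stab S ∩ stab T).card) ∨
    ((stab T).card ≤ (S \ T).card + (stab S ∩ stab T).card) ∨
    ((stab T).card ≤ (T \ S).card) := by
  classical
  set D := stab S ∩ stab T with hD
  set U := (stab S).filter (fun u => c + u ∈ T) with hU
  set U' := (stab S).filter (fun u => ¬ (c + u ∈ T)) with hU'
  set V := (stab T).filter (fun v => ¬ (c + v ∈ S)) with hV
  set V' := (stab T).filter (fun v => c + v ∈ S) with hV'
  have hUU : U.card + U'.card = (stab S).card := by
    rw [hU, hU']
    exact Finset.card_filter_add_card_filter_not _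
  have hVV : V'.card + V.card = (stab T).card := by
    rw [hV, hV']
    exact Finset.card_filter_add_card_filter_not _
  have h1 : U.card * V.card ≤ D.card * (T \ S).card := by
    refine card_mul_card_le hS hT c (Finset.filter_subset _ _) (Finset.filter_subset _ _) ?_
    intro u hu v hv
    rw [hU, Finset.mem_filter] at hu
    rw [hV, Finset.mem_filter] at hv
    rw [Finset.mem_sdiff]
    constructor
    · rw [add_mem_iff hT hv.1]; exact hu.2
    · rw [add_right_comm, add_mem_iff hS hu.1]; exact hv.2
  have h2 : U'.card * V'.card ≤ D.card * (S \ T).card := by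
    refine card_mul_card_le hS hT c (Finset.filter_subset _ _) (Finset.filter_subset _ _) ?_
    intro u hu v hv
    rw [hU', Finset.mem_filter] at hu
    rw [hV', Finset.mem_filter] at hv
    rw [Finset.mem_sdiff]
    constructor
    · rw [add_right_comm, add_mem_iff hS hu.1]; exact hv.2
    · rw [add_mem_iff hT hv.1]; exact hu.2
  have hDpos : 0 < D.card := by
    apply Finset.card_pos.2
    exact ⟨0, by rw [hD, Finset.mem_inter]; exact ⟨zero_mem_stab hS, zero_mem_stab hT⟩⟩
  have h3 : D.card ≤ U.card := by
    apply Finset.card_le_card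
    intro d hd
    rw [hD, Finset.mem_inter] at hd
    rw [hU, Finset.mem_filter]
    exact ⟨hd.1, by rw [add_mem_iff hT hd.2]; exact hcT⟩
  have h4 : D.card ≤ V.card := by
    apply Finset.card_le_card
    intro d hd
    rw [hD, Finset.mem_inter] at hd
    rw [hV, Finset.mem_filter]
    exact ⟨hd.2, by rw [add_mem_iff hS hd.1]; exact hcS⟩
  have h5 : U'.card = 0 ∨ D.card ≤ U'.card := by
    rcases U'.eq_empty_or_nonempty with he | ⟨u0, hu0⟩
    · left; rw [he]; simp
    · right
      rw [hU', Finset.mem_filter] at hu0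
      refine Finset.card_le_card_of_injOn (fun d => u0 + d) ?_ ?_
      · intro d hd
        rw [Finset.mem_coe, hD, Finset.mem_inter] at hd
        show u0 + d ∈ _
        rw [Finset.mem_coe, hU', Finset.mem_filter]
        refine ⟨add_mem_stab hS hu0.1 hd.1, ?_⟩
        rw [← add_assoc, add_mem_iff hT hd.2]
        exact hu0.2
      · intro x _ y _ hxy
        exact add_left_cancel hxy
  have h6 : V'.card = 0 ∨ D.card ≤ V'.card := by
    rcases V'.eq_empty_or_nonempty with he | ⟨u0, hu0⟩
    · left; rw [he]; simp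
    · right
      rw [hV', Finset.mem_filter] at hu0
      refine Finset.card_le_card_of_injOn (fun d => u0 + d) ?_ ?_
      · intro d hd
        rw [Finset.mem_coe, hD, Finset.mem_inter] at hd
        show u0 + d ∈ _
        rw [Finset.mem_coe, hV', Finset.mem_filter]
        refine ⟨add_mem_stab hT hu0.1 hd.2, ?_⟩
        rw [← add_assoc, add_mem_iff hS hd.1]
        exact hu0.2
      · intro x _ y _ hxy
        exact add_left_cancel hxy
  -- arithmetic
  generalize D.card = δ at *
  generalize U.card = a at *
  generalize U'.card = a' at *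
  generalize V.card = b at *
  generalize V'.card = b' at *
  generalize (T \ S).card = p at *
  generalize (S \ T).card = q at *
  rcases h5 with h5 | h5
  · left
    have : a * δ ≤ δ * p := le_trans (Nat.mul_le_mul_left a h4) h1
    have : a ≤ p := by
      rw [mul_comm] at this
      exact Nat.le_of_mul_le_mul_left this hDpos
    omega
  rcases h6 with h6 | h6
  · right; right
    have : δ * b ≤ δ * p := le_trans (Nat.mul_le_mul_right b h3) h1
    have : b ≤ p := Nat.le_of_mul_le_mul_left this hDpos
    omega
  by_contra hcon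
  push Not at hcon
  obtain ⟨c1, c2, c3⟩ := hcon
  have e1 : a + b ≤ p + δ := by
    by_contra hlt
    push Not at hlt
    have : δ * (p + δ) < δ * (a + b) := Nat.mul_lt_mul_of_pos_left hlt hDpos
    nlinarith
  have e2 : a' + b' ≤ q + δ := by
    by_contra hlt
    push Not at hlt
    have : δ * (q + δ) < δ * (a' + b') := Nat.mul_lt_mul_of_pos_left hlt hDpos
    nlinarith
  omega

lemma inter_subset_stab_union {S T : Finset G} (hS : S.Nonempty) (hT : T.Nonempty) :
    stab S ∩ stab T ⊆ stab (S ∪ T) := by
  intro g hg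
  rw [Finset.mem_inter, mem_stab_iff_subset hS, mem_stab_iff_subset hT] at hg
  rw [mem_stab_iff_subset (hS.mono Finset.subset_union_left)]
  intro s hs
  rw [Finset.mem_union] at hs ⊢
  rcases hs with hs | hs
  · exact Or.inl (hg.1 s hs)
  · exact Or.inr (hg.2 s hs)

/-- Kneser's union lemma. -/
lemma union_lemma {S T : Finset G} (hS : S.Nonempty) (hT : T.Nonempty) {K : ℕ}
    (h1 : K ≤ S.card + (stab S).card) (h2 : K ≤ T.card + (stab T).card) :
    K ≤ (S ∪ T).card + (stab (S ∪ T)).card := by
  classical
  by_cases hST : S ⊆ T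
  · rw [Finset.union_eq_right.2 hST]; exact h2
  by_cases hTS : T ⊆ S
  · rw [Finset.union_eq_left.2 hTS]; exact h1
  obtain ⟨c', hc'S, hc'T⟩ := Finset.not_subset.1 hST
  obtain ⟨c, hcT, hcS⟩ := Finset.not_subset.1 hTS
  have hD := Finset.card_le_card (inter_subset_stab_union hS hT)
  have e1 : (S ∪ T).card = S.card + (T \ S).card := by
    rw [← Finset.union_sdiff_self_eq_union, Finset.card_union_of_disjoint Finset.disjoint_sdiff]
  have e2 : (S ∪ T).card = T.card + (S \ T).card := by
    rw [Finset.union_comm, ← Finset.union_sdiff_self_eq_union,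
      Finset.card_union_of_disjoint Finset.disjoint_sdiff]
  have k1 := half hS hT hcT hcS
  have k2 := half hT hS hc'S hc'T
  rw [Finset.inter_comm (stab T) (stab S)] at k2
  omega

/-- The transform step. -/
lemma exists_through_zero (n : ℕ) : ∀ A B : Finset G, B.card = n → (0 : G) ∈ A → (0 : G) ∈ B →
    ∃ S : Finset G, (0 : G) ∈ S ∧ S ⊆ A + B ∧ A.card + B.card ≤ S.card + (stab S).card := by
  classical
  induction n using Nat.strong_induction_on with
  | _ n ih =>
    intro A B hn hA hB
    by_cases hall : ∀ e ∈ A, ∀ b ∈ B, e + b ∈ A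
    · refine ⟨A, hA, ?_, ?_⟩
      · intro x hx
        rw [Finset.mem_add]
        exact ⟨x, hx, 0, hB, by simp⟩
      · have : B ⊆ stab A := by
          intro b hb
          rw [mem_stab_iff_subset ⟨0, hA⟩]
          intro s hs
          rw [add_comm]
          exact hall s hs b hb
        have := Finset.card_le_card this
        omega
    · push Not at hall
      obtain ⟨e, he, b, hb, heb⟩ := hall
      set A' := A ∪ (e +ᵥ B) with hA'
      set B' := B.filter (fun x => e + x ∈ A) with hB'
      have hcard : A'.card + B'.card = A.card + B.card := by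
        have h1 : (e +ᵥ B').card = B'.card := by simp
        have h2 : A ∩ (e +ᵥ B) = e +ᵥ B' := by
          ext x
          rw [Finset.mem_inter, Finset.mem_vadd_finset, Finset.mem_vadd_finset]
          constructor
          · rintro ⟨hx, y, hy, rfl⟩
            exact ⟨y, by rw [hB', Finset.mem_filter]; exact ⟨hy, hx⟩, rfl⟩
          · rintro ⟨y, hy, rfl⟩
            rw [hB', Finset.mem_filter] at hy
            exact ⟨hy.2, y, hy.1, rfl⟩
        have h3 := Finset.card_union_add_card_inter A (e +ᵥ B)
        rw [h2, h1] at h3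
        rw [hA', h3]
        simp
      have hlt : B'.card < n := by
        rw [← hn]
        apply Finset.card_lt_card
        rw [Finset.ssubset_iff_of_subset (Finset.filter_subset _ _)]
        exact ⟨b, hb, by rw [Finset.mem_filter]; exact fun h => heb h.2⟩
      have h0A : (0 : G) ∈ A' := by
        rw [hA', Finset.mem_union]; exact Or.inl hA
      have h0B : (0 : G) ∈ B' := by
        rw [hB', Finset.mem_filter]; exact ⟨hB, by simpa using he⟩
      obtain ⟨S, hS0, hSs, hSc⟩ := ih B'.card hlt A' B' rfl h0A h0B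
      refine ⟨S, hS0, hSs.trans ?_, by omega⟩
      intro x hx
      rw [Finset.mem_add] at hx ⊢
      obtain ⟨y, hy, z, hz, rfl⟩ := hx
      rw [hB', Finset.mem_filter] at hz
      rw [hA', Finset.mem_union] at hy
      rcases hy with hy | hy
      · exact ⟨y, hy, z, hz.1, rfl⟩
      · rw [Finset.mem_vadd_finset] at hy
        obtain ⟨w, hw, rfl⟩ := hy
        refine ⟨e + z, hz.2, w, hw, ?_⟩
        show e + z + w = e + w + z
        abel

lemma stab_vadd {S : Finset G} (hS : S.Nonempty) (g : G) : stab (g +ᵥ S) = stab S := by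
  ext x
  have hS' : (g +ᵥ S).Nonempty := by simpa using hS
  rw [mem_stab hS, mem_stab hS']
  rw [vadd_vadd, add_comm, ← vadd_vadd]
  exact (vadd_left_cancel_iff g)

lemma exists_through (A B : Finset G) {a b : G} (ha : a ∈ A) (hb : b ∈ B) :
    ∃ S : Finset G, a + b ∈ S ∧ S ⊆ A + B ∧ A.card + B.card ≤ S.card + (stab S).card := by
  classical
  have h0A : (0 : G) ∈ (-a) +ᵥ A := by
    rw [Finset.mem_vadd_finset]; exact ⟨a, ha, by simp⟩
  have h0B : (0 : G) ∈ (-b) +ᵥ B := by
    rw [Finset.mem_vadd_finset]; exact ⟨b, hb, by simp⟩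
  obtain ⟨S, hS0, hSs, hSc⟩ := exists_through_zero _ ((-a) +ᵥ A) ((-b) +ᵥ B) rfl h0A h0B
  refine ⟨(a + b) +ᵥ S, ?_, ?_, ?_⟩
  · rw [Finset.mem_vadd_finset]; exact ⟨0, hS0, by simp⟩
  · intro x hx
    rw [Finset.mem_vadd_finset] at hx
    obtain ⟨y, hy, rfl⟩ := hx
    have := hSs hy
    rw [Finset.mem_add] at this
    obtain ⟨u, hu, v, hv, rfl⟩ := this
    rw [Finset.mem_vadd_finset] at hu hv
    obtain ⟨u', hu', rfl⟩ := hu
    obtain ⟨v', hv', rfl⟩ := hv
    rw [Finset.mem_add]
    refine ⟨u', hu', v', hv', ?_⟩
    simp only [vadd_eq_add]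
    abel
  · rw [stab_vadd ⟨0, hS0⟩]
    simpa using hSc

/-- Kneser's theorem, weak form. -/
theorem kneser_weak {A B : Finset G} (hA : A.Nonempty) (hB : B.Nonempty) :
    A.card + B.card ≤ (A + B).card + (stab (A + B)).card := by
  classical
  obtain ⟨a, ha⟩ := hA
  obtain ⟨b, hb⟩ := hB
  set F := (A + B).powerset.filter
    (fun S => S.Nonempty ∧ A.card + B.card ≤ S.card + (stab S).card) with hF
  have hne : F.Nonempty := by
    obtain ⟨S, h1, h2, h3⟩ := exists_through A B ha hb
    exact ⟨S, by rw [hF, Finset.mem_filter, Finset.mem_powerset]; exact ⟨h2, ⟨_, h1⟩, h3⟩⟩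
  obtain ⟨S, hS, hmax⟩ := Finset.exists_max_image F Finset.card hne
  rw [hF, Finset.mem_filter, Finset.mem_powerset] at hS
  obtain ⟨hSs, hSne, hSc⟩ := hS
  have : S = A + B := by
    by_contra hne'
    have hss : S ⊂ A + B := lt_of_le_of_ne hSs hne'
    obtain ⟨c, hc, hcS⟩ := Finset.exists_of_ssubset hss
    rw [Finset.mem_add] at hc
    obtain ⟨x, hx, y, hy, rfl⟩ := hc
    obtain ⟨T, h1, h2, h3⟩ := exists_through A B hx hy
    have hu := union_lemma hSne ⟨_, h1⟩ hSc h3
    have hmem : S ∪ T ∈ F := by
      rw [hF, Finset.mem_filter, Finset.mem_powerset]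
      exact ⟨Finset.union_subset hSs h2, hSne.mono Finset.subset_union_left, hu⟩
    have hle := hmax _ hmem
    have hlt : S.card < (S ∪ T).card := by
      apply Finset.card_lt_card
      rw [Finset.ssubset_iff_of_subset Finset.subset_union_left]
      exact ⟨x + y, Finset.mem_union_right _ h1, hcS⟩
    omega
  rw [← this]
  exact hSc

lemma add_stab_eq {A B : Finset G} (hA : A.Nonempty) (hB : B.Nonempty) :
    (A + stab (A + B)) + (B + stab (A + B)) = A + B := by
  classical
  have hAB : (A + B).Nonempty := hA.add hB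
  ext x
  constructor
  · intro hx
    simp only [Finset.mem_add] at hx
    obtain ⟨_, ⟨a, ha, g, hg, rfl⟩, _, ⟨b, hb, g', hg', rfl⟩, rfl⟩ := hx
    have h1 : a + b ∈ A + B := Finset.add_mem_add ha hb
    have h2 : a + b + g ∈ A + B := (add_mem_iff hAB hg _).2 h1
    have h3 : a + b + g + g' ∈ A + B := (add_mem_iff hAB hg' _).2 h2
    have : a + g + (b + g') = a + b + g + g' := by abel
    rw [this]; exact h3
  · intro hx
    rw [Finset.mem_add] at hx
    obtain ⟨a, ha, b, hb, rfl⟩ := hx
    have h0 := zero_mem_stab hAB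
    refine Finset.add_mem_add ?_ ?_
    · rw [Finset.mem_add]; exact ⟨a, ha, 0, h0, by simp⟩
    · rw [Finset.mem_add]; exact ⟨b, hb, 0, h0, by simp⟩

/-- Kneser's theorem. -/
theorem kneser {A B : Finset G} (hA : A.Nonempty) (hB : B.Nonempty) :
    (A + stab (A + B)).card + (B + stab (A + B)).card ≤ (A + B).card + (stab (A + B)).card := by
  have hAB : (A + B).Nonempty := hA.add hB
  have h0 : (stab (A + B)).Nonempty := ⟨0, zero_mem_stab hAB⟩
  have h := kneser_weak (hA.add h0) (hB.add h0)
  rw [add_stab_eq hA hB] at h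
  exact h

end Pool.Agent.Lib.Kneser
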